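import Pool.Agent.H83.D3N.Targets

/-! Board `obk_modules`, row CPN: the caps in a disc. -/

set_option autoImplicit false

namespace Pool.Agent.H42.D3N.CPN

open Pool.Agent.H83.D3N
open Pool.Agent.H83.G (Z E TF TP Lo ctr IsPU Sep)

theorem pf_CPN : T_CPN := by
  intro ρ c η₀ T hρ hc hT
  have hsub : T ⊆ Fintype.piFinset (fun i : Fin 2 =>
      Finset.Icc ⌈3 * ρ * η₀ i - 3 * c⌉ ⌊3 * ρ * η₀ i + 3 * c⌋) := by
    intro k hk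
    rw [Fintype.mem_piFinset]
    intro i
    have h1 : |(ctr ρ⁻¹ k - η₀) i| ≤ c / ρ := by
      have h2 := PiLp.norm_apply_le (ctr ρ⁻¹ k - η₀) i
      rw [Real.norm_eq_abs] at h2
      exact h2.trans (hT k hk)
    have h2 : (ctr ρ⁻¹ k - η₀) i = ρ⁻¹ / 3 * (k i : ℝ) - η₀ i := by
      have h3 : (ctr ρ⁻¹ k - η₀) i = ρ⁻¹ / (((2 : ℕ) : ℝ) + 1) * (k i : ℝ) - η₀ i := rfl
      rw [h3]
      norm_num
    rw [h2] at h1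
    have h4 : (k i : ℝ) - 3 * ρ * η₀ i = 3 * ρ * (ρ⁻¹ / 3 * (k i : ℝ) - η₀ i) := by
      field_simp
    have h5 : |(k i : ℝ) - 3 * ρ * η₀ i| ≤ 3 * c := by
      rw [h4, abs_mul, abs_of_pos (by positivity : 0 < 3 * ρ)]
      calc 3 * ρ * |ρ⁻¹ / 3 * (k i : ℝ) - η₀ i| ≤ 3 * ρ * (c / ρ) := by gcongr
        _ = 3 * c := by field_simp
    rw [abs_le] at h5
    rw [Finset.mem_Icc, Int.ceil_le, Int.le_floor]
    exact ⟨by linarith [h5.1], by linarith [h5.2]⟩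
  have hI : ∀ i : Fin 2, ((Finset.Icc ⌈3 * ρ * η₀ i - 3 * c⌉ ⌊3 * ρ * η₀ i + 3 * c⌋).card : ℝ) ≤
      7 * c := by
    intro i
    rw [Int.card_Icc]
    have h6 : (⌊3 * ρ * η₀ i + 3 * c⌋ : ℝ) ≤ 3 * ρ * η₀ i + 3 * c := Int.floor_le _
    have h7 : 3 * ρ * η₀ i - 3 * c ≤ (⌈3 * ρ * η₀ i - 3 * c⌉ : ℝ) := Int.le_ceil _
    rcases le_total 0 (⌊3 * ρ * η₀ i + 3 * c⌋ + 1 - ⌈3 * ρ * η₀ i - 3 * c⌉) with h8 | h8
    · have h9 : (((⌊3 * ρ * η₀ i + 3 * c⌋ + 1 - ⌈3 * ρ * η₀ i - 3 * c⌉).toNat : ℤ) : ℝ) =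
          ((⌊3 * ρ * η₀ i + 3 * c⌋ + 1 - ⌈3 * ρ * η₀ i - 3 * c⌉ : ℤ) : ℝ) := by
        rw [Int.toNat_of_nonneg h8]
      rw [Int.cast_natCast] at h9
      rw [h9]
      push_cast
      linarith
    · rw [Int.toNat_of_nonpos h8]
      push_cast
      linarith
  have hcard := Finset.card_le_card hsub
  rw [Fintype.card_piFinset, Fin.prod_univ_two] at hcard
  calc (T.card : ℝ) ≤ ((Finset.Icc ⌈3 * ρ * η₀ 0 - 3 * c⌉ ⌊3 * ρ * η₀ 0 + 3 * c⌋).card : ℝ) *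
        ((Finset.Icc ⌈3 * ρ * η₀ 1 - 3 * c⌉ ⌊3 * ρ * η₀ 1 + 3 * c⌋).card : ℝ) := by
        exact_mod_cast hcard
    _ ≤ (7 * c) * (7 * c) := mul_le_mul (hI 0) (hI 1) (Nat.cast_nonneg _) (by linarith)
    _ = 49 * c ^ 2 := by ring

end Pool.Agent.H42.D3N.CPN
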